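import Mathlib

set_option autoImplicit false

/-!
The maximum principle of the Bergman spaces: rate of convergence of the constants, statements of the parts.
-/

namespace Pool.Agent.Y922.KB

open Complex Metric MeasureTheory Set
open scoped Real

/-- The open annulus `1 - ε < |z| < 1`. -/
def Ann (ε : ℝ) : Set ℂ := {z | 1 - ε < ‖z‖ ∧ ‖z‖ < 1}

/-- A compact annulus inside `Ann ε`. -/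
def Rz (ε : ℝ) : Set ℂ := {z | 1 - ε / 2 ≤ ‖z‖ ∧ ‖z‖ ≤ 1 - ε / 8}

/-- A smaller compact annulus. -/
def Rp (ε : ℝ) : Set ℂ := {z | 1 - ε / 4 ≤ ‖z‖ ∧ ‖z‖ ≤ 1 - ε / 8}

/-- The quotient `f / g` on the annulus. -/
def S_QUO : Prop := ∀ (ε : ℝ) (f g : ℂ → ℂ), 0 < ε → ε ≤ 1 / 2 → DifferentiableOn ℂ f (ball 0 1) →
  DifferentiableOn ℂ g (ball 0 1) → (∀ z ∈ Ann ε, ‖f z‖ ≤ ‖g z‖) → (∃ z ∈ ball (0 : ℂ) 1, g z ≠ 0) →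
  ∃ w : ℂ → ℂ, DifferentiableOn ℂ w (Ann ε) ∧ (∀ z ∈ Ann ε, ‖w z‖ ≤ 1) ∧ ∀ z ∈ Ann ε, f z = w z * g z

/-- Schwarz-Pick. -/
def S_STEP : Prop := ∀ (w : ℂ → ℂ) (z z' : ℂ) (ρ : ℝ), 0 < ρ → DifferentiableOn ℂ w (ball z ρ) →
  (∀ u ∈ ball z ρ, ‖w u‖ ≤ 1) → ‖z' - z‖ ≤ ρ / 2 → ‖w z' - w z‖ ≤ 2 * (1 - ‖w z‖)

/-- Chains of discs in the annulus. -/
def S_CHAIN : Prop := S_STEP → ∃ C₁ : ℝ, 0 < C₁ ∧ ∀ (ε : ℝ) (w : ℂ → ℂ), 0 < ε → ε ≤ 1 / 2 →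
  DifferentiableOn ℂ w (Ann ε) → (∀ z ∈ Ann ε, ‖w z‖ ≤ 1) → ∀ z ∈ Rz ε, ∀ z' ∈ Rz ε,
    1 - ‖w z'‖ ≤ Real.exp (C₁ / ε) * (1 - ‖w z‖) ∧ ‖w z' - w z‖ ≤ Real.exp (C₁ / ε) * (1 - ‖w z‖)

/-- The submean value property over discs. -/
def S_MEAN : Prop := ∀ (G : ℂ → ℂ) (p ρ : ℝ) (ζ : ℂ), 1 ≤ p → 0 < ρ → DifferentiableOn ℂ G (ball 0 1) →
  closedBall ζ ρ ⊆ ball 0 1 → π * ρ ^ 2 * ‖G ζ‖ ^ p ≤ ∫ u in closedBall ζ ρ, ‖G u‖ ^ p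

/-- A function with a zero in `|z| ≤ 1 - ε` is small in `|z| ≤ 1 - ε / 2`. -/
def S_BLA : Prop := S_MEAN → ∀ (ε p : ℝ) (g : ℂ → ℂ) (b : ℂ), 0 < ε → ε ≤ 1 / 2 → 1 ≤ p →
  DifferentiableOn ℂ g (ball 0 1) → g b = 0 → ‖b‖ ≤ 1 - ε → ∀ z : ℂ, ‖z‖ ≤ 1 - ε / 2 →
    ‖g z‖ ^ p ≤ Real.exp (-(p * ε ^ 2 / 60)) * (256 / ε ^ 2) * ∫ u in Rp ε, ‖g u‖ ^ p

/-- The case without zeros. -/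
def S_NZ : Prop := ∀ (ε : ℝ) (f g : ℂ → ℂ), 0 < ε → ε ≤ 1 / 2 → DifferentiableOn ℂ f (ball 0 1) →
  DifferentiableOn ℂ g (ball 0 1) → (∀ z ∈ Ann ε, ‖f z‖ ≤ ‖g z‖) → (∀ z : ℂ, ‖z‖ ≤ 1 - ε → g z ≠ 0) →
  ∀ z ∈ ball (0 : ℂ) 1, ‖f z‖ ≤ ‖g z‖

/-- The two regimes. -/
def S_REG : Prop := ∀ M δ m p : ℝ, 1 ≤ M → 0 ≤ δ → δ ≤ 1 → 0 ≤ m → 1 ≤ p → ∃ Γ lam : ℝ, 0 ≤ Γ ∧ 0 ≤ lam ∧ lam ≤ 1 ∧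
  Γ ≤ 2 * Real.exp 1 * M ^ 2 * lam * m ^ p ∧
  (∀ a b : ℝ, 0 ≤ a → a ≤ m → 0 ≤ b → b ≤ m → a ≤ b + M * δ * m → a ^ p ≤ b ^ p + Γ) ∧
  (∀ x : ℝ, 0 ≤ x → x ≤ 1 - δ / M → x ^ p ≤ 1 - lam)

/-- The numerical condition. -/
def S_NUM : Prop := ∀ C₁ : ℝ, 0 < C₁ → ∃ C : ℝ, 0 < C ∧ ∀ ε p : ℝ, 0 < ε → ε ≤ 1 / 2 → C / ε ^ 3 ≤ p → 1 ≤ p ∧
  π * (2 * Real.exp 1 * Real.exp (C₁ / ε) ^ 2) * (Real.exp (-(p * ε ^ 2 / 60)) * (256 / ε ^ 2)) ≤ 1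

/-- The integral inequality from pointwise inequalities. -/
def S_INT : Prop := ∀ (ε p Γ lam : ℝ) (f g : ℂ → ℂ), 0 < ε → ε ≤ 1 / 2 → 1 ≤ p → 0 ≤ Γ → 0 ≤ lam → lam ≤ 1 →
  DifferentiableOn ℂ f (ball 0 1) → DifferentiableOn ℂ g (ball 0 1) → (∀ z ∈ Ann ε, ‖f z‖ ≤ ‖g z‖) →
  (∀ z : ℂ, ‖z‖ ≤ 1 - ε → ‖f z‖ ^ p ≤ ‖g z‖ ^ p + Γ) → (∀ z ∈ Rp ε, ‖f z‖ ^ p ≤ (1 - lam) * ‖g z‖ ^ p) →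
  π * Γ ≤ lam * ∫ u in Rp ε, ‖g u‖ ^ p →
  ∫⁻ z in ball (0 : ℂ) 1, ‖f z‖ₑ ^ p ≤ ∫⁻ z in ball (0 : ℂ) 1, ‖g z‖ₑ ^ p

/-- The conclusion: `1 - ε` is admissible for `p ≥ C / ε ^ 3`. -/
def Conc : Prop := ∃ C : ℝ, 0 < C ∧ ∀ (ε p : ℝ) (f g : ℂ → ℂ), 0 < ε → ε ≤ 1 / 2 → C / ε ^ 3 ≤ p →
  DifferentiableOn ℂ f (ball 0 1) → DifferentiableOn ℂ g (ball 0 1) → (∀ z ∈ Ann ε, ‖f z‖ ≤ ‖g z‖) →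
  ∫⁻ z in ball (0 : ℂ) 1, ‖f z‖ₑ ^ p ≤ ∫⁻ z in ball (0 : ℂ) 1, ‖g z‖ₑ ^ p

/-- Assembly. -/
def S_FIN : Prop := S_QUO → S_STEP → S_CHAIN → S_MEAN → S_BLA → S_NZ → S_REG → S_NUM → S_INT → Conc

/-- The set of admissible radii. -/
def Adm (p : ℝ) : Set ℝ := {r : ℝ | 0 ≤ r ∧ r < 1 ∧
  ∀ f g : ℂ → ℂ, DifferentiableOn ℂ f (ball 0 1) → DifferentiableOn ℂ g (ball 0 1) →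
    (∀ z : ℂ, r < ‖z‖ → ‖z‖ < 1 → ‖f z‖ ≤ ‖g z‖) →
    ∫⁻ z in ball (0 : ℂ) 1, ‖f z‖ₑ ^ p ≤ ∫⁻ z in ball (0 : ℂ) 1, ‖g z‖ₑ ^ p}

/-- The rate. -/
def S_RATE : Prop := Conc → ∃ C : ℝ, 0 < C ∧ ∀ p : ℝ, 1 ≤ p → 1 - C * p ^ (-(1 / 3) : ℝ) ≤ sSup (Adm p)

end Pool.Agent.Y922.KB
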