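import Pool.Agent.Y922.KB.Stm

set_option autoImplicit false

/-!
The maximum principle of the Bergman spaces: upper bound for the constants, statements of the parts.
-/

namespace Pool.Agent.Y922.KB

open Complex Metric MeasureTheory Set
open scoped Real

/-- The weight `|(z - c) / (1 - c z)|^(p - 2)`. -/
noncomputable def Wt (c p : ℝ) (z : ℂ) : ℝ := (‖z - c‖ / ‖1 - c * z‖) ^ (p - 2)

/-- The weighted mean of `|z|^2` is less than `c^2`. -/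
def S_LINT : Prop := ∀ ε p : ℝ, 0 < ε → ε ≤ 1 / 32 → 2 ≤ p → p * ε ^ 2 ≤ 1 / 64 →
  ∫ z in ball (0 : ℂ) 1, Wt (1 - ε) p z * (‖z‖ ^ 2 - (1 - ε) ^ 2) < 0

/-- Convexity. -/
def S_LPT : Prop := ∀ (c η p : ℝ) (z : ℂ), 0 ≤ c → 0 ≤ η → 2 ≤ p →
  ‖z - c‖ ^ p - η * p * (‖z - c‖ ^ (p - 2) * (‖z‖ ^ 2 - c ^ 2)) ≤ ‖(z - c) - η * (z + c)‖ ^ p

/-- The auxiliary function. -/
def S_LG : Prop := ∀ c p : ℝ, 0 < c → c < 1 → 2 ≤ p → ∃ G : ℂ → ℂ, DifferentiableOn ℂ G (ball 0 1) ∧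
  ∀ z ∈ ball (0 : ℂ) 1, ‖G z‖ ^ p * ‖1 - c * z‖ ^ (p - 2) = 1

/-- The upper bound for the admissible numbers. -/
def S_LFIN : Prop := S_LINT → S_LPT → S_LG → ∀ ε p : ℝ, 0 < ε → ε ≤ 1 / 32 → 2 ≤ p → p * ε ^ 2 ≤ 1 / 64 →
  ∀ r ∈ Adm p, r ≤ 1 - ε

end Pool.Agent.Y922.KB
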